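import Mathlib

set_option autoImplicit false

/-!
Sharp numerical bounds for the Euler-Mascheroni constant: with `H_n` the harmonic number,
`H_n - log n - 1/(2n) + 1/(12n^2) - 1/(120n^4) ≤ γ ≤ H_n - log n - 1/(2n) + 1/(12n^2)`.
-/

namespace Pool.Agent.Helper76.LPB

open Real Filter Topology

theorem tendsto_inv_pow_zero (c : ℝ) (k : ℕ) (hk : 0 < k) :
    Tendsto (fun x : ℝ => c / x ^ k) atTop (𝓝 0) := by
  have h := (tendsto_pow_neg_atTop (𝕜 := ℝ) (n := k) hk.ne').const_mul c
  rw [mul_zero] at h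
  refine h.congr (fun x => ?_)
  rw [zpow_neg, zpow_natCast, div_eq_mul_inv]

/-- The difference of consecutive terms. -/
noncomputable def gP (x : ℝ) : ℝ :=
  Real.log (x + 1) - Real.log x - 1 / (2 * x) - 1 / (2 * (x + 1)) + 1 / (12 * x ^ 2)
    - 1 / (12 * (x + 1) ^ 2)

noncomputable def gQ (x : ℝ) : ℝ :=
  gP x - 1 / (120 * x ^ 4) + 1 / (120 * (x + 1) ^ 4)

theorem gP_deriv {x : ℝ} (hx : 0 < x) :
    HasDerivAt gP (1 / (x + 1) - 1 / x + 1 / (2 * x ^ 2) + 1 / (2 * (x + 1) ^ 2)
      - 1 / (6 * x ^ 3) + 1 / (6 * (x + 1) ^ 3)) x := by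
  have hx1 : x ≠ 0 := hx.ne'
  have hx2 : x + 1 ≠ 0 := by positivity
  have h1 : HasDerivAt (fun y : ℝ => Real.log (y + 1)) (1 / (x + 1)) x :=
    ((hasDerivAt_id x).add_const 1).log hx2
  have h2 : HasDerivAt (fun y : ℝ => Real.log y) (1 / x) x := by
    simpa using (hasDerivAt_id x).log hx1
  have h3 : HasDerivAt (fun y : ℝ => 1 / (2 * y)) (-(1 / (2 * x ^ 2))) x := by
    have := ((hasDerivAt_id x).const_mul 2).inv (by simpa using hx1)
    refine (this.congr_deriv ?_).congr_of_eventuallyEq ?_
    · simp; field_simp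
    · exact Eventually.of_forall (fun y => by simp [one_div])
  have h4 : HasDerivAt (fun y : ℝ => 1 / (2 * (y + 1))) (-(1 / (2 * (x + 1) ^ 2))) x := by
    have := (((hasDerivAt_id x).add_const 1).const_mul 2).inv (by simpa using hx2)
    refine (this.congr_deriv ?_).congr_of_eventuallyEq ?_
    · simp; field_simp
    · exact Eventually.of_forall (fun y => by simp [one_div])
  have h5 : HasDerivAt (fun y : ℝ => 1 / (12 * y ^ 2)) (-(1 / (6 * x ^ 3))) x := by
    have := (((hasDerivAt_id x).pow 2).const_mul 12).inv (by simpa using hx1)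
    refine (this.congr_deriv ?_).congr_of_eventuallyEq ?_
    · simp; field_simp; norm_num
    · exact Eventually.of_forall (fun y => by simp [one_div])
  have h6 : HasDerivAt (fun y : ℝ => 1 / (12 * (y + 1) ^ 2)) (-(1 / (6 * (x + 1) ^ 3))) x := by
    have := ((((hasDerivAt_id x).add_const 1).pow 2).const_mul 12).inv (by simpa using hx2)
    refine (this.congr_deriv ?_).congr_of_eventuallyEq ?_
    · simp; field_simp; norm_num
    · exact Eventually.of_forall (fun y => by simp [one_div])
  refine ((((((h1.sub h2).sub h3).sub h4).add h5).sub h6).congr_deriv ?_).congr_of_eventuallyEq ?_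
  · ring
  · exact Eventually.of_forall (fun y => rfl)

theorem gQ_deriv {x : ℝ} (hx : 0 < x) :
    HasDerivAt gQ (1 / (x + 1) - 1 / x + 1 / (2 * x ^ 2) + 1 / (2 * (x + 1) ^ 2)
      - 1 / (6 * x ^ 3) + 1 / (6 * (x + 1) ^ 3) + 1 / (30 * x ^ 5) - 1 / (30 * (x + 1) ^ 5)) x := by
  have hx1 : x ≠ 0 := hx.ne'
  have hx2 : x + 1 ≠ 0 := by positivity
  have h5 : HasDerivAt (fun y : ℝ => 1 / (120 * y ^ 4)) (-(1 / (30 * x ^ 5))) x := by
    have := (((hasDerivAt_id x).pow 4).const_mul 120).inv (by simpa using hx1)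
    refine (this.congr_deriv ?_).congr_of_eventuallyEq ?_
    · simp; field_simp; norm_num
    · exact Eventually.of_forall (fun y => by simp [one_div])
  have h6 : HasDerivAt (fun y : ℝ => 1 / (120 * (y + 1) ^ 4)) (-(1 / (30 * (x + 1) ^ 5))) x := by
    have := ((((hasDerivAt_id x).add_const 1).pow 4).const_mul 120).inv (by simpa using hx2)
    refine (this.congr_deriv ?_).congr_of_eventuallyEq ?_
    · simp; field_simp; norm_num
    · exact Eventually.of_forall (fun y => by simp [one_div])
  refine (((gP_deriv hx).sub h5).add h6).congr_deriv ?_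
  ring

theorem gP_tendsto : Tendsto gP atTop (𝓝 0) := by
  have h1 := tendsto_log_comp_add_sub_log 1
  have hs : Tendsto (fun x : ℝ => x + 1) atTop atTop := tendsto_atTop_add_const_right _ _ tendsto_id
  have h2 := tendsto_inv_pow_zero (1 / 2) 1 one_pos
  have h3 := (tendsto_inv_pow_zero (1 / 2) 1 one_pos).comp hs
  have h4 := tendsto_inv_pow_zero (1 / 12) 2 two_pos
  have h5 := (tendsto_inv_pow_zero (1 / 12) 2 two_pos).comp hs
  have h := (((h1.sub h2).sub h3).add h4).sub h5
  simp only [sub_zero, add_zero] at h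
  refine h.congr (fun x => ?_)
  simp only [gP, Function.comp_apply, div_div, pow_one]

theorem gQ_tendsto : Tendsto gQ atTop (𝓝 0) := by
  have hs : Tendsto (fun x : ℝ => x + 1) atTop atTop := tendsto_atTop_add_const_right _ _ tendsto_id
  have h4 := tendsto_inv_pow_zero (1 / 120) 4 four_pos
  have h5 := (tendsto_inv_pow_zero (1 / 120) 4 four_pos).comp hs
  have h := (gP_tendsto.sub h4).add h5
  simp only [sub_zero, add_zero] at h
  refine h.congr (fun x => ?_)
  simp only [gQ, Function.comp_apply, div_div]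

theorem gP_nonneg {x : ℝ} (hx : 0 < x) : 0 ≤ gP x := by
  have hanti : AntitoneOn gP (Set.Ioi 0) := by
    apply antitoneOn_of_deriv_nonpos (convex_Ioi 0)
    · exact fun y hy => (gP_deriv hy).continuousAt.continuousWithinAt
    · rw [interior_Ioi]
      exact fun y hy => (gP_deriv hy).differentiableAt.differentiableWithinAt
    · rw [interior_Ioi]
      intro y hy
      have hy' : (0 : ℝ) < y := hy
      rw [(gP_deriv hy').deriv]
      have e : 1 / (y + 1) - 1 / y + 1 / (2 * y ^ 2) + 1 / (2 * (y + 1) ^ 2)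
          - 1 / (6 * y ^ 3) + 1 / (6 * (y + 1) ^ 3) = -(1 / (6 * y ^ 3 * (y + 1) ^ 3)) := by
        have hx1 : y ≠ 0 := hy'.ne'
        have hx2 : y + 1 ≠ 0 := by positivity
        field_simp
        ring
      rw [e]
      have : 0 < 1 / (6 * y ^ 3 * (y + 1) ^ 3) := by positivity
      linarith
  refine le_of_tendsto gP_tendsto ?_
  filter_upwards [eventually_ge_atTop x] with y hy
  exact hanti hx (lt_of_lt_of_le hx hy) hy

theorem gQ_nonpos {x : ℝ} (hx : 0 < x) : gQ x ≤ 0 := by
  have hmono : MonotoneOn gQ (Set.Ioi 0) := by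
    apply monotoneOn_of_deriv_nonneg (convex_Ioi 0)
    · exact fun y hy => (gQ_deriv hy).continuousAt.continuousWithinAt
    · rw [interior_Ioi]
      exact fun y hy => (gQ_deriv hy).differentiableAt.differentiableWithinAt
    · rw [interior_Ioi]
      intro y hy
      have hy' : (0 : ℝ) < y := hy
      rw [(gQ_deriv hy').deriv]
      have e : 1 / (y + 1) - 1 / y + 1 / (2 * y ^ 2) + 1 / (2 * (y + 1) ^ 2)
          - 1 / (6 * y ^ 3) + 1 / (6 * (y + 1) ^ 3) + 1 / (30 * y ^ 5) - 1 / (30 * (y + 1) ^ 5)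
          = (5 * y ^ 2 + 5 * y + 1) / (30 * y ^ 5 * (y + 1) ^ 5) := by
        have hx1 : y ≠ 0 := hy'.ne'
        have hx2 : y + 1 ≠ 0 := by positivity
        field_simp
        ring
      rw [e]
      positivity
  refine ge_of_tendsto gQ_tendsto ?_
  filter_upwards [eventually_ge_atTop x] with y hy
  exact hmono hx (lt_of_lt_of_le hx hy) hy

/-- The upper approximation. -/
noncomputable def aP (n : ℕ) : ℝ :=
  (harmonic n : ℝ) - Real.log n - 1 / (2 * n) + 1 / (12 * (n : ℝ) ^ 2)

/-- The lower approximation. -/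
noncomputable def aQ (n : ℕ) : ℝ := aP n - 1 / (120 * (n : ℝ) ^ 4)

theorem aP_succ {n : ℕ} (hn : 0 < n) : aP n - aP (n + 1) = gP n := by
  have hx1 : (n : ℝ) ≠ 0 := by positivity
  have hx2 : (n : ℝ) + 1 ≠ 0 := by positivity
  unfold aP gP
  rw [harmonic_succ]
  push_cast
  field_simp
  ring

theorem aQ_succ {n : ℕ} (hn : 0 < n) : aQ n - aQ (n + 1) = gQ n := by
  have h := aP_succ hn
  unfold aQ gQ
  push_cast
  linarith

theorem aP_tendsto : Tendsto aP atTop (𝓝 eulerMascheroniConstant) := by
  have hc := tendsto_natCast_atTop_atTop (R := ℝ)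
  have h2 := (tendsto_inv_pow_zero (1 / 2) 1 one_pos).comp hc
  have h4 := (tendsto_inv_pow_zero (1 / 12) 2 two_pos).comp hc
  have h := (tendsto_harmonic_sub_log.sub h2).add h4
  simp only [sub_zero, add_zero] at h
  refine h.congr (fun x => ?_)
  simp only [aP, Function.comp_apply, div_div, pow_one]

theorem aQ_tendsto : Tendsto aQ atTop (𝓝 eulerMascheroniConstant) := by
  have hc := tendsto_natCast_atTop_atTop (R := ℝ)
  have h4 := (tendsto_inv_pow_zero (1 / 120) 4 four_pos).comp hc
  have h := aP_tendsto.sub h4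
  simp only [sub_zero] at h
  refine h.congr (fun x => ?_)
  simp only [aQ, Function.comp_apply, div_div]

theorem gamma_le {n : ℕ} (hn : 0 < n) : eulerMascheroniConstant ≤ aP n := by
  have hm : ∀ m, n ≤ m → aP m ≤ aP n := by
    intro m hm
    induction m, hm using Nat.le_induction with
    | base => exact le_rfl
    | succ k hk ih =>
      have h := aP_succ (hn.trans_le hk)
      have h2 := gP_nonneg (x := (k : ℝ)) (by exact_mod_cast hn.trans_le hk)
      linarith
  refine le_of_tendsto aP_tendsto ?_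
  filter_upwards [eventually_ge_atTop n] with m hm'
  exact hm m hm'

theorem le_gamma {n : ℕ} (hn : 0 < n) : aQ n ≤ eulerMascheroniConstant := by
  have hm : ∀ m, n ≤ m → aQ n ≤ aQ m := by
    intro m hm
    induction m, hm using Nat.le_induction with
    | base => exact le_rfl
    | succ k hk ih =>
      have h := aQ_succ (hn.trans_le hk)
      have h2 := gQ_nonpos (x := (k : ℝ)) (by exact_mod_cast hn.trans_le hk)
      linarith
  refine ge_of_tendsto aQ_tendsto ?_
  filter_upwards [eventually_ge_atTop n] with m hm'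
  exact hm m hm'

theorem harmonic_64_lt : (harmonic 64 : ℚ) < 4.7438909038 := by
  decide +kernel

theorem harmonic_64_gt : 4.7438909037 < (harmonic 64 : ℚ) := by
  decide +kernel

theorem log_64 : Real.log 64 = 6 * Real.log 2 := by
  rw [show (64 : ℝ) = 2 ^ 6 by norm_num, Real.log_pow]
  norm_num

/-- `γ < 0.57721568` (the true value is `0.5772156649...`). -/
theorem gamma_lt : eulerMascheroniConstant < 0.57721568 := by
  have h1 := gamma_le (n := 64) (by norm_num)
  have h2 : ((harmonic 64 : ℚ) : ℝ) < 4.7438909038 := by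
    have := (Rat.cast_lt (K := ℝ)).2 harmonic_64_lt
    refine this.trans_eq ?_
    norm_num
  have h3 := Real.log_two_gt_d9
  unfold aP at h1
  push_cast at h1
  rw [log_64] at h1
  norm_num at h1 h2 h3 ⊢
  linarith

/-- `0.57721565 < γ`. -/
theorem gamma_gt : (0.57721565 : ℝ) < eulerMascheroniConstant := by
  have h1 := le_gamma (n := 64) (by norm_num)
  have h2 : (4.7438909037 : ℝ) < ((harmonic 64 : ℚ) : ℝ) := by
    have := (Rat.cast_lt (K := ℝ)).2 harmonic_64_gt
    refine lt_of_eq_of_lt ?_ this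
    norm_num
  have h3 := Real.log_two_lt_d9
  unfold aQ aP at h1
  push_cast at h1
  rw [log_64] at h1
  norm_num at h1 h2 h3 ⊢
  linarith

/-- `1.14472988 < log π < 1.14472989` (the true value is `1.1447298858...`). -/
theorem log_pi_lt : Real.log π < 1.14472989 := by
  rw [Real.log_lt_iff_lt_exp Real.pi_pos]
  have h := Real.pi_lt_d20
  have h1 : (1.772453851 : ℝ) < Real.exp 0.572364945 := by
    have h2 := Real.sum_le_exp_of_nonneg (x := (0.572364945 : ℝ)) (by norm_num) 13
    refine lt_of_lt_of_le ?_ h2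
    norm_num [Finset.sum_range_succ, Nat.factorial]
  have h3 : Real.exp 1.14472989 = Real.exp 0.572364945 ^ 2 := by
    rw [← Real.exp_nat_mul]
    norm_num
  rw [h3]
  nlinarith

theorem log_pi_gt : (1.14472988 : ℝ) < Real.log π := by
  rw [Real.lt_log_iff_exp_lt Real.pi_pos]
  have h := Real.pi_gt_d20
  have h1 : Real.exp 0.57236494 < (1.77245385 : ℝ) := by
    have h2 := Real.exp_bound' (x := (0.57236494 : ℝ)) (by norm_num) (by norm_num)
      (n := 13) (by norm_num)
    refine lt_of_le_of_lt h2 ?_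
    norm_num [Finset.sum_range_succ, Nat.factorial]
  have h3 : Real.exp 1.14472988 = Real.exp 0.57236494 ^ 2 := by
    rw [← Real.exp_nat_mul]
    norm_num
  rw [h3]
  have h4 := Real.exp_pos 0.57236494
  nlinarith

end Pool.Agent.Helper76.LPB
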