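import Pool.Agent.Helper78.LE.LB15
import Pool.Agent.Helper78.LE.LB17

/-!
Project LPB: from a lower bound for a truncated energy to a lower bound for the logarithmic energy.
-/

set_option autoImplicit false

open MeasureTheory Set Filter Topology

namespace Pool.Agent.Helper76.LPB

open Pool.Agent.Helper78.LE

variable {d : ℕ}

theorem exp_div_int' {a c : ℝ} (ha : 0 < a) (hc : 0 < c) :
    IntegrableOn (fun t : ℝ => Real.exp (-(t * c)) / t) (Ioi a) := by
  have h1 : IntegrableOn (fun t : ℝ => Real.exp (-(t * c))) (Ioi a) := by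
    have := integrableOn_exp_mul_Ioi (a := -c) (by linarith) a
    refine this.congr_fun (fun t _ => ?_) measurableSet_Ioi
    simp only
    congr 1
    ring
  have hm : Measurable (fun t : ℝ => Real.exp (-(t * c)) / t) := by fun_prop
  refine Integrable.mono' (h1.const_mul (1 / a)) hm.aestronglyMeasurable ?_
  rw [ae_restrict_iff' measurableSet_Ioi]
  apply Filter.Eventually.of_forall
  intro t ht
  have ht1 : a < t := ht
  have ht0 : 0 < t := ha.trans ht1
  rw [Real.norm_of_nonneg (by positivity), div_eq_mul_one_div, mul_comm]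
  apply mul_le_mul_of_nonneg_right _ (Real.exp_pos _).le
  exact one_div_le_one_div_of_le ha ht1.le

theorem rpow_int_a (d : ℕ) (hd : 0 < d) {a : ℝ} (ha : 0 < a) :
    IntegrableOn (fun t : ℝ => (Real.pi / t) ^ ((d : ℝ) / 2) / t) (Ioi a) ∧
    ∫ t in Ioi a, (Real.pi / t) ^ ((d : ℝ) / 2) / t = 2 / d * (Real.pi / a) ^ ((d : ℝ) / 2) := by
  have hpi := Real.pi_pos
  have hd' : (0 : ℝ) < d := by exact_mod_cast hd
  have h1 : ∀ t ∈ Ioi a, (Real.pi / t) ^ ((d : ℝ) / 2) / t =
      Real.pi ^ ((d : ℝ) / 2) * t ^ (-((d : ℝ) / 2) - 1) := by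
    intro t ht
    have ht0 : 0 < t := ha.trans ht
    rw [Real.div_rpow hpi.le ht0.le, Real.rpow_sub ht0, Real.rpow_one, Real.rpow_neg ht0.le]
    field_simp
  have hlt : -((d : ℝ) / 2) - 1 < -1 := by linarith
  constructor
  · rw [integrableOn_congr_fun h1 measurableSet_Ioi]
    exact (integrableOn_Ioi_rpow_of_lt hlt ha).const_mul _
  · rw [setIntegral_congr_fun measurableSet_Ioi h1, integral_const_mul,
      integral_Ioi_rpow_of_lt hlt ha]
    have h2 : -((d : ℝ) / 2) - 1 + 1 = -((d : ℝ) / 2) := by ring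
    rw [h2, Real.rpow_neg ha.le, Real.div_rpow hpi.le ha.le]
    have h3 : 0 < a ^ ((d : ℝ) / 2) := Real.rpow_pos_of_pos ha _
    field_simp

/-- the energy part of the integrand -/
theorem gE_div_int {N n : ℕ} {a : ℝ} (ha : 0 < a) (r : ℝ) (hr : 0 < r) (x : Fin N → EV n)
    (hinj : Function.Injective x) :
    IntegrableOn (fun t : ℝ => gE (t * r) x / t) (Ioi a) ∧
    ∫ t in Ioi a, gE (t * r) x / t = ∑ i, ∑ j, if i = j then 0 else
      ∫ t in Ioi a, Real.exp (-(t * (r * ‖x i - x j‖ ^ 2))) / t := by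
  have h0 : ∀ t : ℝ, gE (t * r) x / t = ∑ i, ∑ j, if i = j then 0 else
      Real.exp (-(t * (r * ‖x i - x j‖ ^ 2))) / t := by
    intro t
    unfold gE gau
    rw [Finset.sum_div]
    refine Finset.sum_congr rfl fun i _ => ?_
    rw [Finset.sum_div]
    refine Finset.sum_congr rfl fun j _ => ?_
    split_ifs
    · simp
    · rw [mul_assoc]
  have h1 : ∀ i j : Fin N, IntegrableOn (fun t : ℝ => if i = j then 0 else
      Real.exp (-(t * (r * ‖x i - x j‖ ^ 2))) / t) (Ioi a) := by
    intro i j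
    by_cases hij : i = j
    · simp only [hij, if_true]
      exact integrableOn_zero
    · simp only [if_neg hij]
      apply exp_div_int' ha
      have : 0 < ‖x i - x j‖ := by
        rw [norm_pos_iff, sub_ne_zero]
        exact fun h => hij (hinj h)
      positivity
  constructor
  · simp only [h0]
    exact integrable_finset_sum _ fun i _ => integrable_finset_sum _ fun j _ => h1 i j
  · simp only [h0]
    rw [integral_finset_sum _ fun i _ => integrable_finset_sum _ fun j _ => h1 i j]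
    refine Finset.sum_congr rfl fun i _ => ?_
    rw [integral_finset_sum _ fun j _ => h1 i j]
    refine Finset.sum_congr rfl fun j _ => ?_
    split_ifs
    · simp
    · rfl

theorem gE_ge_mix {N n : ℕ} {a : ℝ} (ha : 0 < a) (r : ℝ) (hr : 0 < r) {m : ℕ} (w s : Fin m → ℝ)
    (hQ : ∀ x : ℝ, 0 < x → ∑ k, w k * Real.exp (-(s k * x)) ≤
      1 / 2 * ∫ t in Ioi a, Real.exp (-(t * x)) / t)
    (x : Fin N → EV n) (hinj : Function.Injective x) :
    2 * ∑ k, w k * gE (s k * r) x ≤ ∫ t in Ioi a, gE (t * r) x / t := by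
  rw [(gE_div_int ha r hr x hinj).2]
  have h1 : 2 * ∑ k, w k * gE (s k * r) x = ∑ i, ∑ j, if i = j then 0 else
      2 * ∑ k, w k * Real.exp (-(s k * (r * ‖x i - x j‖ ^ 2))) := by
    have h2 : ∀ k, w k * gE (s k * r) x = ∑ i, ∑ j, if i = j then 0 else
        w k * Real.exp (-(s k * (r * ‖x i - x j‖ ^ 2))) := by
      intro k
      unfold gE gau
      rw [Finset.mul_sum]
      refine Finset.sum_congr rfl fun i _ => ?_
      rw [Finset.mul_sum]
      refine Finset.sum_congr rfl fun j _ => ?_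
      split_ifs
      · simp
      · rw [mul_assoc (s k)]
    simp only [h2]
    rw [Finset.sum_comm, Finset.mul_sum]
    refine Finset.sum_congr rfl fun i _ => ?_
    rw [Finset.sum_comm, Finset.mul_sum]
    refine Finset.sum_congr rfl fun j _ => ?_
    split_ifs
    · simp
    · rfl
  rw [h1]
  refine Finset.sum_le_sum fun i _ => Finset.sum_le_sum fun j _ => ?_
  split_ifs with hij
  · exact le_rfl
  · have h3 : 0 < ‖x i - x j‖ := by
      rw [norm_pos_iff, sub_ne_zero]
      exact fun h => hij (hinj h)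
    have := hQ (r * ‖x i - x j‖ ^ 2) (by positivity)
    linarith

theorem gS_int_tendsto (hd : 0 < d) {a : ℝ} (ha : 0 < a)
    (hint : ∀ N : ℕ, 0 < N → IntegrableOn (fun t : ℝ => (N : ℝ) * gS d (t * rate d N) / t) (Ioi a)) :
    Tendsto (fun N : ℕ => ∫ t in Ioi a, (N : ℝ) * gS d (t * rate d N) / t) atTop
      (𝓝 (2 / d * (Real.pi / a) ^ ((d : ℝ) / 2))) := by
  obtain ⟨C, hC, hCb⟩ := gS_bound hd
  have hd' : (0 : ℝ) < d := by exact_mod_cast hd
  rw [← (rpow_int_a d hd ha).2]
  refine tendsto_integral_filter_of_dominated_convergence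
    (fun t => C * sphArea d * t ^ (-(d : ℝ) / 2 - 1)) ?_ ?_ ?_ ?_
  · filter_upwards [eventually_gt_atTop 0] with N hN
    exact (hint N hN).aestronglyMeasurable
  · filter_upwards [eventually_gt_atTop 0] with N hN
    refine (ae_restrict_iff' measurableSet_Ioi).2 (ae_of_all _ fun t ht => ?_)
    have ht0 : 0 < t := ha.trans ht
    have hr := LB15.rate_pos d hN
    have hN' : (0 : ℝ) < N := Nat.cast_pos.2 hN
    have h0 : 0 ≤ gS d (t * rate d N) := by
      unfold gS
      refine div_nonneg (integral_nonneg fun x => integral_nonneg fun y => (Real.exp_pos _).le)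
        (sq_nonneg _)
    rw [Real.norm_of_nonneg (by positivity)]
    have h3 := hCb (t * rate d N) (mul_pos ht0 hr)
    have h4 : (N : ℝ) * gS d (t * rate d N) ≤ C * sphArea d * t ^ (-(d : ℝ) / 2) := by
      calc (N : ℝ) * gS d (t * rate d N) ≤ N * (C * (t * rate d N) ^ (-(d : ℝ) / 2)) :=
            mul_le_mul_of_nonneg_left h3 hN'.le
        _ = C * sphArea d * t ^ (-(d : ℝ) / 2) := by
            have e1 : (-(d : ℝ) / 2) = -((d : ℝ) / 2) := by ring
            rw [e1, Real.mul_rpow ht0.le hr.le, Real.rpow_neg hr.le, LB15.rate_rpow hd]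
            have := (sphArea_pos d).ne'
            field_simp
    have h5 : t ^ (-(d : ℝ) / 2 - 1) = t ^ (-(d : ℝ) / 2) / t := by
      rw [Real.rpow_sub ht0, Real.rpow_one]
    rw [h5, ← mul_div_assoc]
    exact div_le_div_of_nonneg_right h4 ht0.le
  · exact (integrableOn_Ioi_rpow_of_lt (by linarith) ha).const_mul _
  · refine (ae_restrict_iff' measurableSet_Ioi).2 (ae_of_all _ fun t ht => ?_)
    exact (LB15.gS_lim hd t (ha.trans ht)).div_const t

theorem lower_of_trunc (hd : 0 < d) (a : ℝ) (ha : 0 < a) {m : ℕ} (w s : Fin m → ℝ)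
    (hQ : ∀ x : ℝ, 0 < x → ∑ k, w k * Real.exp (-(s k * x)) ≤
      1 / 2 * ∫ t in Ioi a, Real.exp (-(t * x)) / t)
    (V : ℝ) (hV : ∀ ε : ℝ, 0 < ε → ∀ᶠ N : ℕ in atTop, ∀ x : Fin N → EV (d + 1),
      (∀ i, ‖x i‖ = 1) → Function.Injective x →
        N * (V - ε) ≤ ∑ k, w k * gE (s k * rate d N) x) (ε : ℝ) (hε : 0 < ε) :
    ∀ᶠ N : ℕ in atTop, Vlog d * (N : ℝ) ^ 2 - 1 / d * (N * Real.log N) +
      (1 / d * Real.log (sphArea d) - (Real.log a + Real.eulerMascheroniConstant) / 2 -
        1 / d * (Real.pi / a) ^ ((d : ℝ) / 2) + V - ε) * N ≤ minLog d N := by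
  choose X hX hXi hXe using fun N => LB15.exists_near hd N
  -- integrability of the smooth part
  have hJa : ∀ N : ℕ, 0 < N → IntegrableOn (LB15.JJ (X N)) (Ioi a) := fun N hN =>
    (LB15.JJ_int hd hN _ (hX N) (hXi N)).mono_set (Ioi_subset_Ioi ha.le)
  have hE : IntegrableOn (fun t : ℝ => Real.exp (-t) / t) (Ioi a) := LB17.exp_div_int ha
  have hG : ∀ N : ℕ, 0 < N → IntegrableOn (fun t : ℝ => gE (t * rate d N) (X N) / t) (Ioi a) :=
    fun N hN => (gE_div_int ha _ (LB15.rate_pos d hN) _ (hXi N)).1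
  have hSeq : ∀ N : ℕ, 0 < N → ∀ t ∈ Ioi a, (N : ℝ) * gS d (t * rate d N) / t =
      gE (t * rate d N) (X N) / t / N + Real.exp (-t) / t - LB15.JJ (X N) t := by
    intro N hN t ht
    have ht0 : 0 < t := ha.trans ht
    have hN' : (0 : ℝ) < N := Nat.cast_pos.2 hN
    unfold LB15.JJ
    field_simp
    ring
  have hS : ∀ N : ℕ, 0 < N →
      IntegrableOn (fun t : ℝ => (N : ℝ) * gS d (t * rate d N) / t) (Ioi a) := by
    intro N hN
    rw [integrableOn_congr_fun (hSeq N hN) measurableSet_Ioi]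
    exact (((hG N hN).div_const _).add hE).sub (hJa N hN)
  have hlim := gS_int_tendsto hd ha hS
  have h1 := hlim.eventually (gt_mem_nhds
    (show 2 / d * (Real.pi / a) ^ ((d : ℝ) / 2) < 2 / d * (Real.pi / a) ^ ((d : ℝ) / 2) + ε / 2 by
      linarith))
  have h2 := hV (ε / 4) (by positivity)
  have h3 : ∀ᶠ N : ℕ in atTop, 2 / ε * 2 ≤ (N : ℝ) :=
    tendsto_natCast_atTop_atTop.eventually_ge_atTop _
  filter_upwards [h1, h2, h3, eventually_gt_atTop 0] with N g1 g2 g3 g4
  have hN' : (0 : ℝ) < N := Nat.cast_pos.2 g4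
  have hr := LB15.rate_pos d g4
  have g5 := g2 (X N) (hX N) (hXi N)
  have g6 := gE_ge_mix ha (rate d N) hr w s hQ (X N) (hXi N)
  have hJ := LB15.JJ_int hd g4 _ (hX N) (hXi N)
  -- the part on (0, a)
  have g7 : ∫ t in (0 : ℝ)..a, (Real.exp (-t) - 1) / t ≤ ∫ t in (0 : ℝ)..a, LB15.JJ (X N) t := by
    apply intervalIntegral.integral_mono_on_of_le_Ioo ha.le (LB17.exp_sub_div_int _ ha)
    · rw [intervalIntegrable_iff_integrableOn_Ioc_of_le ha.le]
      exact hJ.mono_set Ioc_subset_Ioi_self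
    · intro t ht
      unfold LB15.JJ
      apply div_le_div_of_nonneg_right _ ht.1.le
      have h1 := gE_ge (t * rate d N) (mul_pos ht.1 hr) (X N) (hX N)
      have h2 : (N : ℝ) * gS d (t * rate d N) - 1 ≤ gE (t * rate d N) (X N) / N := by
        rw [le_div_iff₀ hN']
        nlinarith [h1]
      linarith
  -- the part on (a, ∞)
  have g8 : ∫ t in Ioi a, LB15.JJ (X N) t = (∫ t in Ioi a, gE (t * rate d N) (X N) / t) / N +
      (∫ t in Ioi a, Real.exp (-t) / t) - ∫ t in Ioi a, (N : ℝ) * gS d (t * rate d N) / t := by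
    have e1 : ∀ t ∈ Ioi a, LB15.JJ (X N) t = gE (t * rate d N) (X N) / t / N +
        Real.exp (-t) / t - (N : ℝ) * gS d (t * rate d N) / t := by
      intro t ht
      rw [hSeq N g4 t ht]
      ring
    have i1 : Integrable (fun t : ℝ => gE (t * rate d N) (X N) / t / (N : ℝ))
        (volume.restrict (Ioi a)) := (hG N g4).div_const _
    have i2 : Integrable (fun t : ℝ => gE (t * rate d N) (X N) / t / (N : ℝ) + Real.exp (-t) / t)
        (volume.restrict (Ioi a)) := i1.add hE
    rw [setIntegral_congr_fun measurableSet_Ioi e1]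
    have e2 := integral_sub i2 (hS N g4)
    have e3 := integral_add i1 hE
    have e4 := integral_div (μ := volume.restrict (Ioi a)) (N : ℝ)
      (fun t : ℝ => gE (t * rate d N) (X N) / t)
    rw [e2, e3, e4]
  have g9 : ∫ t in Ioi (0 : ℝ), LB15.JJ (X N) t = (∫ t in (0 : ℝ)..a, LB15.JJ (X N) t) +
      ∫ t in Ioi a, LB15.JJ (X N) t :=
    (intervalIntegral.integral_interval_add_Ioi hJ (hJ.mono_set (Ioi_subset_Ioi ha.le))).symm
  have g10 := exp_int a ha
  have g11 := LB15.JJ_val hd g4 _ (hX N) (hXi N)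
  have g12 : 2 * (V - ε / 4) ≤ (∫ t in Ioi a, gE (t * rate d N) (X N) / t) / N := by
    rw [le_div_iff₀ hN']
    linarith
  have hd' : (d : ℝ) ≠ 0 := by positivity
  have g13 : 2 * (V - ε / 4) - Real.log a - Real.eulerMascheroniConstant -
      (2 / d * (Real.pi / a) ^ ((d : ℝ) / 2) + ε / 2) ≤
      2 * ((logEnergy (X N) - Vlog d * (N : ℝ) ^ 2) / N) +
        2 / d * (Real.log N - Real.log (sphArea d)) := by
    rw [← g11, g9, g8]
    linarith
  have g14 : 4 ≤ ε * N := by
    have : 2 / ε * 2 = 4 / ε := by ring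
    rw [this, div_le_iff₀ hε] at g3
    linarith
  have g15 := hXe N
  have g16 := mul_le_mul_of_nonneg_right g13 hN'.le
  have g17 : (2 * ((logEnergy (X N) - Vlog d * (N : ℝ) ^ 2) / N) +
        2 / d * (Real.log N - Real.log (sphArea d))) * N =
      2 * (logEnergy (X N) - Vlog d * (N : ℝ) ^ 2) +
        2 * (1 / d * (N * Real.log N) - 1 / d * Real.log (sphArea d) * N) := by
    field_simp
  rw [g17] at g16
  have g18 : 2 / (d : ℝ) * (Real.pi / a) ^ ((d : ℝ) / 2) =
      2 * (1 / d * (Real.pi / a) ^ ((d : ℝ) / 2)) := by ring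
  rw [g18] at g16
  nlinarith [g14, g15, g16]

end Pool.Agent.Helper76.LPB
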