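import Mathlib

/-!
Project LP: exact sum-of-squares certificates for integer polynomials that are
nonnegative on the half line: if all coefficients of `K L - a ^ 2 - X c ^ 2` are nonnegative and
`0 < K`, then `0 ≤ L (s)` for `0 ≤ s`.
-/

set_option autoImplicit false

namespace Pool.Agent.Helper76.LPB

/-- the value at `x` of the polynomial with the coefficient list `L` -/
def evL : List ℤ → ℝ → ℝ
  | [], _ => 0
  | c :: L, x => c + x * evL L x

/-- sum of coefficient lists -/
def addP : List ℤ → List ℤ → List ℤ
  | [], M => M
  | a :: L, [] => a :: L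
  | a :: L, b :: M => (a + b) :: addP L M

/-- product with a constant -/
def smulP (c : ℤ) : List ℤ → List ℤ
  | [] => []
  | a :: L => (c * a) :: smulP c L

/-- product of coefficient lists -/
def mulP : List ℤ → List ℤ → List ℤ
  | [], _ => []
  | a :: L, M => addP (smulP a M) (0 :: mulP L M)

/-- all entries are nonnegative -/
def allNN : List ℤ → Bool
  | [] => true
  | a :: L => decide (0 ≤ a) && allNN L

/-- the certificate test -/
def sosOK (K : ℤ) (a c L : List ℤ) : Bool :=
  decide (0 < K) &&
    allNN (addP (smulP K L) (smulP (-1) (addP (mulP a a) (0 :: mulP c c))))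

theorem evL_nil (x : ℝ) : evL [] x = 0 := rfl

theorem evL_cons (a : ℤ) (L : List ℤ) (x : ℝ) : evL (a :: L) x = a + x * evL L x := rfl

theorem evL_addP (L M : List ℤ) (x : ℝ) : evL (addP L M) x = evL L x + evL M x := by
  induction L generalizing M with
  | nil => simp [addP, evL]
  | cons a L ih =>
    cases M with
    | nil => simp [addP, evL]
    | cons b M => simp only [addP, evL, ih]; push_cast; ring

theorem evL_smulP (c : ℤ) (L : List ℤ) (x : ℝ) : evL (smulP c L) x = c * evL L x := by
  induction L with
  | nil => simp [smulP, evL]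
  | cons a L ih => simp only [smulP, evL, ih]; push_cast; ring

theorem evL_mulP (L M : List ℤ) (x : ℝ) : evL (mulP L M) x = evL L x * evL M x := by
  induction L with
  | nil => simp [mulP, evL]
  | cons a L ih => simp only [mulP, evL, evL_addP, evL_smulP, ih]; push_cast; ring

theorem evL_nonneg (L : List ℤ) (h : allNN L = true) {x : ℝ} (hx : 0 ≤ x) : 0 ≤ evL L x := by
  induction L with
  | nil => exact le_of_eq rfl
  | cons a L ih =>
    rw [allNN, Bool.and_eq_true] at h
    have ha : (0 : ℝ) ≤ a := by exact_mod_cast of_decide_eq_true h.1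
    have h2 := ih h.2
    rw [evL_cons]
    positivity

/-- soundness of the certificate test -/
theorem sosOK_nonneg {K : ℤ} {a c L : List ℤ} (h : sosOK K a c L = true) {x : ℝ} (hx : 0 ≤ x) :
    0 ≤ evL L x := by
  rw [sosOK, Bool.and_eq_true] at h
  have hK : (0 : ℝ) < K := by exact_mod_cast of_decide_eq_true h.1
  have h2 := evL_nonneg _ h.2 hx
  rw [evL_addP, evL_smulP, evL_smulP, evL_addP, evL_mulP, evL_cons, evL_mulP] at h2
  push_cast at h2
  have h3 : 0 ≤ (K : ℝ) * evL L x := by
    nlinarith [mul_self_nonneg (evL a x), mul_nonneg hx (mul_self_nonneg (evL c x))]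
  exact nonneg_of_mul_nonneg_right h3 hK

end Pool.Agent.Helper76.LPB
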